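import Pool.Agent.helper37.NE.SpecA

/-!
# Row `ne:YGW` (MP_baa4d7_al): the group `N' = Nw N w` for `WW p N Z w`
-/

set_option autoImplicit false

namespace Pool.Agent.NE

open Pool.Agent.helper58.DC Pool.Agent.DI Pool.Agent.GR Pool.Agent.OB Pool.Agent.DR Pool.Agent.FI Pool.Agent.FI3 Pool.Agent.FI4 Pool.Agent.FI4I Pool.Agent.LE Pool.Agent.L5 Pool.Agent.NAB Pool.Agent.ND

theorem YGW_zp {G : Type} [Group G] {N : Subgroup G} {w : G} (hw : w ∈ nz N) : Subgroup.zpowers w ≤ nz N :=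
  (Subgroup.zpowers_le).2 hw

theorem YGW_mem {G : Type} [Group G] {N : Subgroup G} {w : G} (hw : w ∈ nz N) {y : G} (hy : y ∈ Nw N w) :
    ∃ n ∈ N, ∃ k : ℤ, y = n * w ^ k := by
  have h1 : y ∈ ((N ⊔ Subgroup.zpowers w : Subgroup G) : Set G) := hy
  rw [Subgroup.coe_mul_of_right_le_normalizer_left N (Subgroup.zpowers w) (YGW_zp hw)] at h1
  obtain ⟨n, hn, v, hv, rfl⟩ := h1
  obtain ⟨k, rfl⟩ := Subgroup.mem_zpowers_iff.1 hv
  exact ⟨n, hn, k, rfl⟩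

theorem YGW_le {G : Type} [Group G] {N : Subgroup G} {w : G} (hw : w ∈ nz N) : Nw N w ≤ nz N :=
  sup_le Subgroup.le_normalizer (YGW_zp hw)

theorem YGW_w {G : Type} [Group G] (N : Subgroup G) (w : G) : w ∈ Nw N w :=
  Subgroup.mem_sup_right (Subgroup.mem_zpowers w)

theorem YGW_inf {G : Type} [Group G] {P Q : Subgroup G} {w : G} (hP : w ∈ nz P) (hQ : w ∈ nz Q) : w ∈ nz (P ⊓ Q) := by
  rw [Subgroup.mem_normalizer_iff] at hP hQ ⊢
  intro h
  rw [Subgroup.mem_inf, Subgroup.mem_inf, ← hP h, ← hQ h]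

theorem YGW_cz1 {G : Type} [Group G] {V : Subgroup G} {w : G} (hV : w ∈ nz V) (c : G) (hc : c ∈ cz V) : w * c * w⁻¹ ∈ cz V := by
  rw [Subgroup.mem_centralizer_iff] at hc ⊢
  intro h hh
  have h1 : w⁻¹ * h * w ∈ V := (Subgroup.mem_normalizer_iff''.1 hV h).1 hh
  have h2 := hc _ h1
  have h3 : h * (w * c * w⁻¹) = w * ((w⁻¹ * h * w) * c) * w⁻¹ := by group
  rw [h3, h2]
  group

theorem YGW_cz {G : Type} [Group G] {V : Subgroup G} {w : G} (hV : w ∈ nz V) : w ∈ nz (cz V) := by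
  rw [Subgroup.mem_normalizer_iff]
  intro c
  constructor
  · exact YGW_cz1 hV c
  · intro hc
    have h1 := YGW_cz1 ((nz V).inv_mem hV) _ hc
    have h2 : w⁻¹ * (w * c * w⁻¹) * w⁻¹⁻¹ = c := by group
    rwa [h2] at h1

/-- **YGW.** -/
theorem YGW : YGW_stmt := by
  intro p hp G _ _ N Z w hW
  have hw := hW.nn
  have hNle : N ≤ Nw N w := le_sup_left
  have hle := YGW_le hw
  have hN' : (N.subgroupOf (Nw N w)).Normal := (Subgroup.normal_subgroupOf_iff_le_normalizer hNle).2 hle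
  -- the quotient
  set φ : Nw N w →* (Nw N w) ⧸ N.subgroupOf (Nw N w) := QuotientGroup.mk' _ with hφ
  have hker : ∀ y : Nw N w, φ y = 1 ↔ (y : G) ∈ N := by
    intro y
    rw [hφ]
    show (QuotientGroup.mk y : (Nw N w) ⧸ N.subgroupOf (Nw N w)) = 1 ↔ _
    rw [QuotientGroup.eq_one_iff, Subgroup.mem_subgroupOf]
  set W : Nw N w := ⟨w, YGW_w N w⟩ with hWd
  have hgen : ∀ x : (Nw N w) ⧸ N.subgroupOf (Nw N w), x ∈ Subgroup.zpowers (φ W) := by
    intro x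
    obtain ⟨y, rfl⟩ := QuotientGroup.mk'_surjective (N.subgroupOf (Nw N w)) x
    obtain ⟨n, hn, k, hk⟩ := YGW_mem hw y.2
    rw [Subgroup.mem_zpowers_iff]
    refine ⟨k, ?_⟩
    have h1 : φ (y * (W ^ k)⁻¹) = 1 := by
      rw [hker]
      have h2 : ((y * (W ^ k)⁻¹ : Nw N w) : G) = n := by
        rw [Subgroup.coe_mul, Subgroup.coe_inv, Subgroup.coe_zpow, hk]
        exact mul_inv_cancel_right n (w ^ k)
      rw [h2]
      exact hn
    rw [map_mul, map_inv, map_zpow, mul_inv_eq_one] at h1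
    exact h1.symm
  have hcard : Nat.card ((Nw N w) ⧸ N.subgroupOf (Nw N w)) = orderOf (φ W) := (orderOf_eq_card_of_forall_mem_zpowers hgen).symm
  have hdvd : Nat.card ((Nw N w) ⧸ N.subgroupOf (Nw N w)) ∣ orderOf w := by
    rw [hcard]
    refine (orderOf_map_dvd φ W).trans ?_
    rw [← Subgroup.orderOf_coe W]
  have hpc : ¬ p ∣ Nat.card ((Nw N w) ⧸ N.subgroupOf (Nw N w)) := fun h => hW.re (h.trans hdvd)
  have hV4 : ∀ V : Subgroup G, w ∈ nz V → Nw N w ⊓ nz V = Nw (N ⊓ nz V) w := by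
    intro V hV
    apply le_antisymm
    · intro x hx
      rw [Subgroup.mem_inf] at hx
      obtain ⟨n, hn, k, rfl⟩ := YGW_mem hw hx.1
      have h1 : n ∈ nz V := by
        have h2 := (nz V).mul_mem hx.2 ((nz V).inv_mem ((nz V).zpow_mem hV k))
        rwa [mul_inv_cancel_right] at h2
      exact Subgroup.mul_mem_sup (Subgroup.mem_inf.2 ⟨hn, h1⟩) (Subgroup.zpow_mem _ (Subgroup.mem_zpowers w) k)
    · refine sup_le (inf_le_inf_right _ hNle) ((Subgroup.zpowers_le).2 (Subgroup.mem_inf.2 ⟨YGW_w N w, hV⟩))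
  refine ⟨⟨hNle, YGW_w N w, hle⟩, ?_, ?_, hV4, ?_, ?_, ?_⟩
  · rintro y hy ⟨j, hj⟩
    have h1 : orderOf (φ ⟨y, hy⟩) ∣ p ^ j := by
      apply orderOf_dvd_of_pow_eq_one
      rw [← map_pow]
      have h2 : (⟨y, hy⟩ : Nw N w) ^ p ^ j = 1 := by
        apply Subtype.ext
        rw [Subgroup.coe_pow, Subgroup.coe_one]
        exact hj
      rw [h2, map_one]
    have h2 : orderOf (φ ⟨y, hy⟩) ∣ Nat.card ((Nw N w) ⧸ N.subgroupOf (Nw N w)) := orderOf_dvd_natCard _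
    have h3 : Nat.Coprime (p ^ j) (Nat.card ((Nw N w) ⧸ N.subgroupOf (Nw N w))) :=
      Nat.Coprime.pow_left j ((Nat.Prime.coprime_iff_not_dvd hp).2 hpc)
    have h4 : orderOf (φ ⟨y, hy⟩) = 1 := Nat.eq_one_of_dvd_coprimes h3 h1 h2
    exact (hker ⟨y, hy⟩).1 (orderOf_eq_one_iff.1 h4)
  · refine ⟨_, hpc, ?_⟩
    rw [Subgroup.card_eq_card_quotient_mul_card_subgroup (N.subgroupOf (Nw N w)), mul_comm,
      Nat.card_congr (Subgroup.subgroupOfEquivOfLe hNle).toEquiv]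
  · intro V hV
    rw [← hV4 V hV]
    apply le_antisymm
    · intro x hx
      rw [Subgroup.mem_inf, Subgroup.mem_inf] at hx
      exact Subgroup.mem_inf.2 ⟨hx.2, hx.1.2⟩
    · intro x hx
      rw [Subgroup.mem_inf] at hx
      exact Subgroup.mem_inf.2 ⟨Subgroup.mem_inf.2 ⟨hNle hx.1, hx.2⟩, hx.1⟩
  · intro V hV
    exact ⟨YGW_inf hw (Subgroup.le_normalizer hV), YGW_inf hw (YGW_cz hV), YGW_cz hV⟩
  · have : IsCyclic ((Nw N w) ⧸ N.subgroupOf (Nw N w)) := ⟨⟨φ W, hgen⟩⟩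
    obtain ⟨⟨g, hg⟩, hgg⟩ := IsCyclic.exists_generator (α := ((Nw N w ⊓ cz Z).subgroupOf (Nw N w)).map φ)
    obtain ⟨s, hs, hsg⟩ := Subgroup.mem_map.1 hg
    rw [Subgroup.mem_subgroupOf] at hs
    have hs' := Subgroup.mem_inf.1 hs
    refine ⟨s, hs, YGW_inf (hle hs'.1) (Subgroup.le_normalizer hs'.2), ?_⟩
    apply le_antisymm
    · intro c hc
      have hc' := Subgroup.mem_inf.1 hc
      have h1 : φ ⟨c, hc'.1⟩ ∈ ((Nw N w ⊓ cz Z).subgroupOf (Nw N w)).map φ :=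
        Subgroup.mem_map.2 ⟨⟨c, hc'.1⟩, Subgroup.mem_subgroupOf.2 hc, rfl⟩
      obtain ⟨k, hk⟩ := Subgroup.mem_zpowers_iff.1 (hgg ⟨_, h1⟩)
      have h2 : g ^ k = φ ⟨c, hc'.1⟩ := by
        have h3 := congrArg Subtype.val hk
        rwa [Subgroup.coe_zpow] at h3
      have h4 : φ (⟨c, hc'.1⟩ * (s ^ k)⁻¹) = 1 := by
        rw [map_mul, map_inv, map_zpow, hsg, h2, mul_inv_cancel]
      rw [hker] at h4
      have h5 : c * ((s : G) ^ k)⁻¹ ∈ N := by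
        rwa [Subgroup.coe_mul, Subgroup.coe_inv, Subgroup.coe_zpow] at h4
      have h6 : c * ((s : G) ^ k)⁻¹ ∈ cz Z := (cz Z).mul_mem hc'.2 ((cz Z).inv_mem ((cz Z).zpow_mem hs'.2 k))
      have h7 := Subgroup.mul_mem_sup (Subgroup.mem_inf.2 ⟨h5, h6⟩) (Subgroup.zpow_mem _ (Subgroup.mem_zpowers (s : G)) k)
      rwa [inv_mul_cancel_right] at h7
    · exact sup_le (inf_le_inf_right _ hNle) ((Subgroup.zpowers_le).2 hs)

end Pool.Agent.NE
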